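import Pool.Agent.H12.UT.Targets2

/-!
# Row CV of the board `utn_modules`: the homomorphism of the curve
-/

set_option autoImplicit false

open Polynomial
open Pool.Agent.H12.UT

namespace Pool.Agent.H66.UT

theorem pf_CV (hCV1 : T_CV1) : T_CV := by
  intro K k Ω Λ _ _ _ _ _ _ _ _ N z hz htop i0 i1
  set ev : MvPolynomial (Fin N) K →+* Λ :=
    MvPolynomial.eval₂Hom ((algebraMap k[X] Λ).comp (C.comp (algebraMap K k)))
      (fun j => algebraMap k[X] Λ (C (i0 (z j)) + X * C (i1 (z j))) / algebraMap k[X] Λ (1 + X))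
    with hev
  have hinjΛ : Function.Injective (algebraMap k[X] Λ) := IsFractionRing.injective k[X] Λ
  have hae : Function.Injective (MvPolynomial.aeval z : MvPolynomial (Fin N) K →ₐ[K] Ω) := hz
  have hi : ∀ (i : Ω →ₐ[K] k) (P : MvPolynomial (Fin N) K),
      MvPolynomial.aeval (fun j => i (z j)) P = i (MvPolynomial.aeval z P) := by
    intro i P
    rw [← MvPolynomial.comp_aeval_apply]
  have hevinj : Function.Injective ev := by
    rw [injective_iff_map_eq_zero]
    intro P hP
    by_contra hP0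
    obtain ⟨A, -, hA0, -, hA⟩ := hCV1 K k Λ N (fun j => i0 (z j)) (fun j => i1 (z j)) P
      P.totalDegree le_rfl
    have h1 : A.coeff 0 ≠ 0 := by
      rw [hA0, hi]
      intro h
      have h2 : MvPolynomial.aeval z P = 0 := i0.toRingHom.injective (by
        rw [map_zero]; exact h)
      exact hP0 (hae (by rw [h2, map_zero]))
    have h2 : algebraMap k[X] Λ A = 0 := by
      rw [hA]
      have : MvPolynomial.eval₂ ((algebraMap k[X] Λ).comp (C.comp (algebraMap K k)))
        (fun j => algebraMap k[X] Λ (C (i0 (z j)) + X * C (i1 (z j))) /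
          algebraMap k[X] Λ (1 + X)) P = ev P := rfl
      rw [this, hP, mul_zero]
    have h3 : A = 0 := hinjΛ (by rw [h2, map_zero])
    exact h1 (by rw [h3, coeff_zero])
  letI : Algebra (MvPolynomial (Fin N) K) Ω := (MvPolynomial.aeval z).toRingHom.toAlgebra
  have halg : ∀ P : MvPolynomial (Fin N) K,
      algebraMap (MvPolynomial (Fin N) K) Ω P = MvPolynomial.aeval z P := fun P => rfl
  have hsurj : ∀ h : Ω, ∃ P Q : MvPolynomial (Fin N) K, MvPolynomial.aeval z Q ≠ 0 ∧
      MvPolynomial.aeval z P = h * MvPolynomial.aeval z Q := by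
    intro h
    have hh : h ∈ IntermediateField.adjoin K (Set.range z) := by
      rw [htop]; exact IntermediateField.mem_top
    rw [IntermediateField.mem_adjoin_range_iff] at hh
    obtain ⟨r, s, hrs⟩ := hh
    by_cases hs : MvPolynomial.aeval z s = 0
    · refine ⟨0, 1, by rw [map_one]; exact one_ne_zero, ?_⟩
      rw [hrs, hs, div_zero, map_zero, zero_mul]
    · exact ⟨r, s, hs, by rw [hrs, div_mul_cancel₀ _ hs]⟩
  haveI : IsFractionRing (MvPolynomial (Fin N) K) Ω := by
    refine ⟨?_, ?_, ?_⟩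
    · rintro ⟨y, hy⟩
      rw [halg]
      refine IsUnit.mk0 _ ?_
      intro h
      exact nonZeroDivisors.ne_zero hy (hae (by rw [map_zero]; exact h))
    · intro h
      obtain ⟨P, Q, hQ, hPQ⟩ := hsurj h
      have hQ0 : Q ≠ 0 := by rintro rfl; exact hQ (map_zero _)
      exact ⟨(P, ⟨Q, mem_nonZeroDivisors_of_ne_zero hQ0⟩), by rw [halg, halg]; exact hPQ.symm⟩
    · intro x y hxy
      exact ⟨1, by rw [hae hxy]⟩
  set Φ : Ω →+* Λ := IsFractionRing.lift hevinj with hΦ
  have hΦev : ∀ P : MvPolynomial (Fin N) K, Φ (MvPolynomial.aeval z P) = ev P := fun P =>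
    IsFractionRing.lift_algebraMap hevinj P
  refine ⟨Φ, ?_, ?_⟩
  · intro c
    have h1 : algebraMap K Ω c = MvPolynomial.aeval z (MvPolynomial.C c) := by
      rw [MvPolynomial.aeval_C]
    rw [h1, hΦev, hev, MvPolynomial.coe_eval₂Hom, MvPolynomial.eval₂_C]
    rfl
  · intro h
    obtain ⟨P, Q, hQ, hPQ⟩ := hsurj h
    obtain ⟨A, hA1, hA2, hA3, hA4⟩ := hCV1 K k Λ N (fun j => i0 (z j)) (fun j => i1 (z j)) P
      (max P.totalDegree Q.totalDegree) (le_max_left _ _)
    obtain ⟨B, hB1, hB2, hB3, hB4⟩ := hCV1 K k Λ N (fun j => i0 (z j)) (fun j => i1 (z j)) Q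
      (max P.totalDegree Q.totalDegree) (le_max_right _ _)
    refine ⟨A, B, max P.totalDegree Q.totalDegree, MvPolynomial.aeval z P,
      MvPolynomial.aeval z Q, hQ, hPQ, hA1, hB1, ?_, ?_, ?_, ?_, ?_⟩
    · rw [hA2, hi]
    · rw [hA3, hi]
    · rw [hB2, hi]
    · rw [hB3, hi]
    · rw [hA4, hB4]
      have h1 : ev P = Φ h * ev Q := by
        rw [← hΦev, ← hΦev, ← map_mul, hPQ]
      change _ * ev P = Φ h * (_ * ev Q)
      rw [h1]
      ring

end Pool.Agent.H66.UT
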