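import Pool.Agent.H12.UT.Targets2

/-!
# Row MON of the board `utn_modules`: independent monomials
-/

set_option autoImplicit false

open Polynomial
open Pool.Agent.H12.UT

namespace Pool.Agent.H66.UT

theorem exists_gam (n : ℕ) : ∃ γ : Fin n → ℝ, (∀ j, 0 < γ j) ∧
    ∀ (k : ℚ) (c : Fin n → ℚ), (k : ℝ) + ∑ j, (c j : ℝ) * γ j = 0 → ∀ j, c j = 0 := by
  have hle : ((n + 1 : ℕ) : Cardinal) ≤ Module.rank ℚ ℝ := by
    rw [Real.rank_rat_real]
    exact (Cardinal.natCast_lt_aleph0.le).trans Cardinal.aleph0_le_continuum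
  obtain ⟨f, hf⟩ := exists_linearIndependent_of_le_rank hle
  have hf0 : ∀ j, f j ≠ 0 := fun j => hf.ne_zero j
  refine ⟨fun j => |f j.succ / f 0|, fun j => abs_pos.2 (div_ne_zero (hf0 _) (hf0 _)), ?_⟩
  intro k c h
  have hs : ∀ j : Fin n, ∃ e : ℚ, e ≠ 0 ∧ |f j.succ / f 0| = (e : ℝ) * (f j.succ / f 0) := by
    intro j
    rcases abs_choice (f j.succ / f 0) with h1 | h1
    · exact ⟨1, one_ne_zero, by rw [h1]; push_cast; ring⟩
    · exact ⟨-1, by norm_num, by rw [h1]; push_cast; ring⟩
  choose e he0 he using hs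
  rw [Fintype.linearIndependent_iff] at hf
  have h1 : ∑ i : Fin (n + 1), (Fin.cons k (fun j => c j * e j) : Fin (n + 1) → ℚ) i • f i = 0 := by
    rw [Fin.sum_univ_succ]
    simp only [Fin.cons_zero, Fin.cons_succ]
    have h2 : f 0 * ((k : ℝ) + ∑ j, (c j : ℝ) * |f j.succ / f 0|) = 0 := by rw [h, mul_zero]
    rw [← h2, mul_add, Finset.mul_sum, Rat.smul_def, mul_comm (f 0) (k : ℝ)]
    congr 1
    refine Finset.sum_congr rfl fun j _ => ?_
    rw [Rat.smul_def, he j]
    have := hf0 0
    push_cast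
    field_simp
  have h3 := hf _ h1
  intro j
  have h4 := h3 j.succ
  rw [Fin.cons_succ] at h4
  exact (mul_eq_zero.1 h4).resolve_right (he0 j)

theorem phi_coeff {κ : Type} [Field κ] (φ : κ[X] →+* HS κ)
    (hC : ∀ c : κ, φ (C c) = HahnSeries.C c) (hX : φ X = HahnSeries.single 1 1) (p : κ[X]) :
    (∀ l : ℕ, (φ p).coeff (l : ℝ) = p.coeff l) ∧
      ∀ s : ℝ, (∀ l : ℕ, s ≠ l) → (φ p).coeff s = 0 := by
  have hm : ∀ (k : ℕ) (c : κ), φ (monomial k c) = HahnSeries.single (k : ℝ) c := by
    intro k c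
    rw [← C_mul_X_pow_eq_monomial, map_mul, map_pow, hC, hX, HahnSeries.single_pow,
      HahnSeries.C_apply, HahnSeries.single_mul_single, one_pow, mul_one, zero_add,
      nsmul_eq_mul, mul_one]
  induction p using Polynomial.induction_on' with
  | add p q hp hq =>
    refine ⟨fun l => ?_, fun s hs => ?_⟩
    · rw [map_add, HahnSeries.coeff_add, hp.1, hq.1, coeff_add]
    · rw [map_add, HahnSeries.coeff_add, hp.2 s hs, hq.2 s hs, add_zero]
  | monomial k c =>
    rw [hm]
    refine ⟨fun l => ?_, fun s hs => ?_⟩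
    · by_cases hl : l = k
      · rw [hl, HahnSeries.coeff_single_same, coeff_monomial_same]
      · rw [HahnSeries.coeff_single_of_ne (fun h => hl (Nat.cast_injective h)),
          coeff_monomial_of_ne _ hl]
    · exact HahnSeries.coeff_single_of_ne (hs k)

theorem prod_single {κ : Type} [Field κ] {n : ℕ} (γ : Fin n → ℝ) (α : Fin n →₀ ℕ) :
    (α.prod fun j e => (HahnSeries.single (γ j) 1 : HS κ) ^ e) =
      HahnSeries.single (∑ j, (α j : ℝ) * γ j) 1 := by
  rw [Finsupp.prod_fintype _ _ (fun j => pow_zero _)]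
  have h : ∀ s : Finset (Fin n), ∏ j ∈ s, (HahnSeries.single (γ j) 1 : HS κ) ^ (α j) =
      HahnSeries.single (∑ j ∈ s, (α j : ℝ) * γ j) 1 := by
    intro s
    induction s using Finset.cons_induction with
    | empty => rw [Finset.prod_empty, Finset.sum_empty]; rfl
    | cons a s ha ih =>
      rw [Finset.prod_cons, Finset.sum_cons, ih, HahnSeries.single_pow,
        HahnSeries.single_mul_single, one_pow, mul_one, nsmul_eq_mul]
  exact h Finset.univ

theorem pf_MON : T_MON := by
  intro κ _ n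
  obtain ⟨γ, hpos, hind⟩ := exists_gam n
  refine ⟨γ, hpos, ?_⟩
  intro K _ _ _ _ hC hX
  set φ : κ[X] →+* HS κ := (algebraMap K (HS κ)).comp (algebraMap κ[X] K) with hφ
  have hco := phi_coeff φ hC hX
  rw [AlgebraicIndependent, injective_iff_map_eq_zero]
  intro P hP
  -- common denominator
  obtain ⟨b, hb⟩ := IsLocalization.exist_integer_multiples (nonZeroDivisors κ[X]) P.support
    (fun α => P.coeff α)
  have hb0 : algebraMap κ[X] K b ≠ 0 := by
    intro h
    exact nonZeroDivisors.ne_zero b.2 (IsFractionRing.injective κ[X] K (by rw [h, map_zero]))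
  have hc : ∀ α : Fin n →₀ ℕ, ∃ c : κ[X], algebraMap κ[X] K c =
      algebraMap κ[X] K b * P.coeff α := by
    intro α
    by_cases hα : α ∈ P.support
    · obtain ⟨c, hc⟩ := hb α hα
      refine ⟨c, ?_⟩
      rw [hc, Algebra.smul_def]
    · refine ⟨0, ?_⟩
      rw [MvPolynomial.notMem_support_iff.1 hα, map_zero, mul_zero]
  choose c hc using hc
  have hsum : ∑ α ∈ P.support, φ (c α) * HahnSeries.single (∑ j, (α j : ℝ) * γ j) 1 = 0 := by
    have h1 : algebraMap K (HS κ) (algebraMap κ[X] K b) *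
        MvPolynomial.aeval (fun j => (HahnSeries.single (γ j) 1 : HS κ)) P = 0 := by
      rw [hP, mul_zero]
    rw [MvPolynomial.aeval_def, MvPolynomial.eval₂_eq, Finset.mul_sum] at h1
    rw [← h1]
    refine Finset.sum_congr rfl fun α _ => ?_
    rw [← prod_single γ α, ← mul_assoc, ← map_mul, ← hc, hφ]
    rfl
  ext β
  rw [MvPolynomial.coeff_zero]
  by_contra hβ
  have hβs : β ∈ P.support := MvPolynomial.mem_support_iff.2 hβ
  have hcβ : c β = 0 := by
    ext l
    have h2 := congrArg (fun x : HS κ => x.coeff ((l : ℝ) + ∑ j, (β j : ℝ) * γ j)) hsum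
    simp only [HahnSeries.coeff_sum, HahnSeries.coeff_zero, HahnSeries.coeff_mul_single,
      mul_one] at h2
    rw [Finset.sum_eq_single β] at h2
    · rw [add_sub_cancel_right, (hco _).1] at h2
      rw [h2, coeff_zero]
    · intro α _ hαβ
      refine (hco _).2 _ ?_
      intro m hm
      apply hαβ
      have h3 : (((l : ℚ) - m : ℚ) : ℝ) + ∑ j, ((((β j : ℚ) - α j : ℚ)) : ℝ) * γ j = 0 := by
        have h4 : ∑ j, ((((β j : ℚ) - α j : ℚ)) : ℝ) * γ j =
            ∑ j, (β j : ℝ) * γ j - ∑ j, (α j : ℝ) * γ j := by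
          rw [← Finset.sum_sub_distrib]
          refine Finset.sum_congr rfl fun j _ => ?_
          push_cast
          ring
        rw [h4]
        push_cast
        linarith
      have h5 := hind _ _ h3
      ext j
      have h6 := h5 j
      have h7 : (β j : ℚ) = α j := by linarith
      exact_mod_cast h7.symm
    · intro h
      exact absurd hβs h
  have h8 := hc β
  rw [hcβ, map_zero] at h8
  rcases mul_eq_zero.1 h8.symm with h9 | h9
  · exact hb0 h9
  · exact hβ h9

end Pool.Agent.H66.UT
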