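import Pool.Agent.H12.UT.Targets2

/-!
# Row TRB of the board `utn_modules`: transcendence bases
-/

set_option autoImplicit false

open Polynomial
open Pool.Agent.H12.UT

namespace Pool.Agent.H66.UT

theorem pf_TRB : T_TRB := by
  intro K F _ _ _ n x S htop hS htr
  have hint : ∀ w ∈ S, IsIntegral (IntermediateField.adjoin K (Set.range x)) w := by
    intro w hw
    refine IsIntegral.of_pow (n := 2) (by norm_num) ?_
    exact isIntegral_algebraMap
      (x := (⟨w ^ 2, hS w hw⟩ : IntermediateField.adjoin K (Set.range x)))
  have halg := IntermediateField.isAlgebraic_adjoin hint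
  have htop' : ∀ y : F, y ∈ IntermediateField.adjoin
      (IntermediateField.adjoin K (Set.range x)) S := by
    intro y
    have h1 : y ∈ (IntermediateField.adjoin
      (IntermediateField.adjoin K (Set.range x)) S).restrictScalars K := by
      rw [IntermediateField.adjoin_adjoin_left, htop]
      exact IntermediateField.mem_top
    exact h1
  have halg2 : Algebra.IsAlgebraic (IntermediateField.adjoin K (Set.range x)) F := by
    refine ⟨fun y => ?_⟩
    exact IntermediateField.isAlgebraic_iff.1 (halg.isAlgebraic ⟨y, htop' y⟩)
  have halg3 : Algebra.IsAlgebraic (Algebra.adjoin K (Set.range x)) F :=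
    IntermediateField.isAlgebraic_adjoin_iff_top.1 halg2
  exact (Algebra.IsAlgebraic.isTranscendenceBasis_of_le_trdeg_of_finite K x
    (by rw [htr, Cardinal.mk_fin])).1

end Pool.Agent.H66.UT
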