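import Pool.Agent.H12.UT.Targets2

/-!
# Row UFD of the board `utn_modules`: norms with even divisor are squares
-/

set_option autoImplicit false

open Polynomial
open Pool.Agent.H12.UT

namespace Pool.Agent.H66.UT

section

variable {S : Type} [CommRing S]

/-- `e` or the identity -/
def cs (b : Bool) (e : S ≃+* S) : S ≃+* S := if b then e else RingEquiv.refl S

/-- the elements of the group -/
def gg (σ : Fin 3 → S ≃+* S) (a b c : Bool) : S ≃+* S :=
  ((cs c (σ 2)).trans (cs b (σ 1))).trans (cs a (σ 0))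

variable (σ : Fin 3 → S ≃+* S)

theorem gg_fff (f : S) : gg σ false false false f = f := rfl
theorem gg_tff (f : S) : gg σ true false false f = σ 0 f := rfl
theorem gg_ftf (f : S) : gg σ false true false f = σ 1 f := rfl
theorem gg_fft (f : S) : gg σ false false true f = σ 2 f := rfl
theorem gg_ttf (f : S) : gg σ true true false f = σ 0 (σ 1 f) := rfl
theorem gg_tft (f : S) : gg σ true false true f = σ 0 (σ 2 f) := rfl
theorem gg_ftt (f : S) : gg σ false true true f = σ 1 (σ 2 f) := rfl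
theorem gg_ttt (f : S) : gg σ true true true f = σ 0 (σ 1 (σ 2 f)) := rfl

theorem N3_mul (f h : S) : N3 σ (f * h) = N3 σ f * N3 σ h := by
  simp only [N3, map_mul]
  ring

theorem N3_one : N3 σ 1 = 1 := by
  simp only [N3, map_one, mul_one]

variable (hinv : ∀ i f, σ i (σ i f) = f) (hcom : ∀ i j f, σ i (σ j f) = σ j (σ i f))

include hinv hcom

theorem gg_gg (a b c : Bool) (f : S) : gg σ a b c (gg σ a b c f) = f := by
  have h10 : ∀ f, σ 1 (σ 0 f) = σ 0 (σ 1 f) := fun f => hcom 1 0 f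
  have h20 : ∀ f, σ 2 (σ 0 f) = σ 0 (σ 2 f) := fun f => hcom 2 0 f
  have h21 : ∀ f, σ 2 (σ 1 f) = σ 1 (σ 2 f) := fun f => hcom 2 1 f
  rcases a with _ | _ <;> rcases b with _ | _ <;> rcases c with _ | _ <;>
    simp only [gg_fff, gg_tff, gg_ftf, gg_fft, gg_ttf, gg_tft, gg_ftt, gg_ttt, h10, h20, h21, hinv]

theorem N3_gg (a b c : Bool) (f : S) : N3 σ (gg σ a b c f) = N3 σ f := by
  have h10 : ∀ f, σ 1 (σ 0 f) = σ 0 (σ 1 f) := fun f => hcom 1 0 f
  have h20 : ∀ f, σ 2 (σ 0 f) = σ 0 (σ 2 f) := fun f => hcom 2 0 f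
  have h21 : ∀ f, σ 2 (σ 1 f) = σ 1 (σ 2 f) := fun f => hcom 2 1 f
  rcases a with _ | _ <;> rcases b with _ | _ <;> rcases c with _ | _ <;>
    simp only [N3, gg_fff, gg_tff, gg_ftf, gg_fft, gg_ttf, gg_tft, gg_ftt, gg_ttt, h10, h20, h21,
      hinv] <;> ring

omit hinv hcom in
theorem sq_of_split (τ : S ≃+* S) (i j : Fin 3) (θ w : S)
    (hN : N3 σ θ = (θ * τ θ) * σ i (θ * τ θ) * σ j (θ * τ θ) * σ i (σ j (θ * τ θ)))
    (hw : IsSquare (w * σ i w * σ j w * σ i (σ j w))) (hτ : τ θ = w * θ) :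
    IsSquare (N3 σ θ) := by
  have h : N3 σ θ = (w * σ i w * σ j w * σ i (σ j w)) *
      ((θ * σ i θ * σ j θ * σ i (σ j θ)) * (θ * σ i θ * σ j θ * σ i (σ j θ))) := by
    rw [hN, hτ]
    simp only [map_mul]
    ring
  rw [h]
  exact hw.mul ⟨_, rfl⟩

theorem sq_of_assoc (hW : ∀ w : S, IsUnit w → ∀ i j, i ≠ j →
      IsSquare (w * σ i w * σ j w * σ i (σ j w)))
    (a b c : Bool) (habc : a = true ∨ b = true ∨ c = true) (θ w : S) (hw : IsUnit w)
    (hτ : gg σ a b c θ = w * θ) : IsSquare (N3 σ θ) := by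
  have h10 : ∀ f, σ 1 (σ 0 f) = σ 0 (σ 1 f) := fun f => hcom 1 0 f
  have h20 : ∀ f, σ 2 (σ 0 f) = σ 0 (σ 2 f) := fun f => hcom 2 0 f
  have h21 : ∀ f, σ 2 (σ 1 f) = σ 1 (σ 2 f) := fun f => hcom 2 1 f
  rcases a with _ | _
  · rcases b with _ | _
    · rcases c with _ | _
      · simp at habc
      · refine sq_of_split σ (gg σ false false true) 0 1 θ w ?_ (hW w hw 0 1 (by decide)) hτ
        simp only [N3, gg_fft, map_mul, h10, h20, h21, hinv]
        ring
    · refine sq_of_split σ (gg σ false true c) 0 2 θ w ?_ (hW w hw 0 2 (by decide)) hτ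
      rcases c with _ | _
      · simp only [N3, gg_ftf, map_mul, h10, h20, h21, hinv]
        ring
      · simp only [N3, gg_ftt, map_mul, h10, h20, h21, hinv]
        ring
  · refine sq_of_split σ (gg σ true b c) 1 2 θ w ?_ (hW w hw 1 2 (by decide)) hτ
    rcases b with _ | _ <;> rcases c with _ | _
    · simp only [N3, gg_tff, map_mul, h10, h20, h21, hinv]
      ring
    · simp only [N3, gg_tft, map_mul, h10, h20, h21, hinv]
      ring
    · simp only [N3, gg_ttf, map_mul, h10, h20, h21, hinv]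
      ring
    · simp only [N3, gg_ttt, map_mul, h10, h20, h21, hinv]
      ring

end

theorem N3_ne_zero {S : Type} [CommRing S] [IsDomain S] (σ : Fin 3 → S ≃+* S) {f : S}
    (hf : f ≠ 0) : N3 σ f ≠ 0 := by
  have h : ∀ e : S ≃+* S, ∀ x : S, x ≠ 0 → e x ≠ 0 := fun e x hx => by
    intro h0
    exact hx (e.injective (by rw [h0, map_zero]))
  unfold N3
  have h0 := h (σ 0); have h1 := h (σ 1); have h2 := h (σ 2)
  refine mul_ne_zero (mul_ne_zero (mul_ne_zero (mul_ne_zero (mul_ne_zero (mul_ne_zero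
    (mul_ne_zero hf ?_) ?_) ?_) ?_) ?_) ?_) ?_
  · exact h0 _ hf
  · exact h1 _ hf
  · exact h2 _ hf
  · exact h0 _ (h1 _ hf)
  · exact h0 _ (h2 _ hf)
  · exact h1 _ (h2 _ hf)
  · exact h0 _ (h1 _ (h2 _ hf))

/-- dividing by a square -/
theorem descend {S : Type} [CommRing S] [IsDomain S] [UniqueFactorizationMonoid S]
    (q n w s : S) (hq : q ≠ 0) (hw : IsUnit w) (h : q ^ 2 * n = w * s ^ 2) :
    ∃ t, n = w * t ^ 2 := by
  obtain ⟨u, rfl⟩ := hw
  have h1 : q ^ 2 ∣ s ^ 2 := by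
    have h2 : q ^ 2 ∣ (u : S) * s ^ 2 := ⟨n, h.symm⟩
    rwa [Units.dvd_mul_left] at h2
  have h3 : q ∣ s := (IsIntegrallyClosed.pow_dvd_pow_iff (two_ne_zero)).1 h1
  obtain ⟨t, rfl⟩ := h3
  refine ⟨t, ?_⟩
  apply mul_left_cancel₀ (pow_ne_zero 2 hq)
  rw [h]
  ring

theorem pf_UFD : T_UFD := by
  intro S _ _ _ σ hinv hcom hU hW f
  refine WellFounded.induction (C := fun f : S => f ≠ 0 → ∀ w s : S, IsUnit w →
    N3 σ f = w * s ^ 2 → IsSquare (N3 σ f)) (IsWellFounded.wf (r := DvdNotUnit (α := S))) f ?_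
  intro f IH hf w s hw hN
  by_cases hfu : IsUnit f
  · exact hU f hfu
  obtain ⟨θ, hθi, h, rfl⟩ := WfDvdMonoid.exists_irreducible_factor hfu hf
  have hθ : Prime θ := UniqueFactorizationMonoid.irreducible_iff_prime.1 hθi
  have hh : h ≠ 0 := right_ne_zero_of_mul hf
  by_cases hA : ∃ a b c : Bool, (a = true ∨ b = true ∨ c = true) ∧ Associated θ (gg σ a b c θ)
  · obtain ⟨a, b, c, habc, hass⟩ := hA
    obtain ⟨u, hu⟩ := hass
    have hq := sq_of_assoc σ hinv hcom hW a b c habc θ u u.isUnit (by rw [← hu, mul_comm])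
    obtain ⟨q, hq⟩ := hq
    have hq0 : q ≠ 0 := by
      rintro rfl
      exact N3_ne_zero σ hθ.ne_zero (by rw [hq, mul_zero])
    have h1 : q ^ 2 * N3 σ h = w * s ^ 2 := by
      rw [← hN, N3_mul, hq]
      ring
    obtain ⟨t, ht⟩ := descend q _ w s hq0 hw h1
    have h2 := IH h ⟨hh, θ, hθ.not_unit, mul_comm _ _⟩ hh w t hw ht
    rw [N3_mul, hq]
    exact (IsSquare.mul_self q).mul h2
  · push Not at hA
    -- `θ` divides `s`
    have hdf : θ ∣ N3 σ (θ * h) := by
      rw [N3_mul]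
      refine Dvd.dvd.mul_right ?_ _
      unfold N3
      exact ⟨σ 0 θ * σ 1 θ * σ 2 θ * σ 0 (σ 1 θ) * σ 0 (σ 2 θ) * σ 1 (σ 2 θ) *
        σ 0 (σ 1 (σ 2 θ)), by ring⟩
    have hs : θ ∣ s := by
      rw [hN] at hdf
      rcases hθ.dvd_or_dvd hdf with h1 | h1
      · exact absurd (isUnit_of_dvd_unit h1 hw) hθ.not_unit
      · exact hθ.dvd_of_dvd_pow h1
    obtain ⟨r, rfl⟩ := hs
    -- conjugates are not divisible by `θ`
    have hnd : ∀ a b c : Bool, (a = true ∨ b = true ∨ c = true) → ¬ θ ∣ gg σ a b c θ := by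
      intro a b c habc hd
      apply hA a b c habc
      have hp : Irreducible (gg σ a b c θ) := by
        have : Prime (gg σ a b c θ) := (MulEquiv.prime_iff (gg σ a b c).toMulEquiv).2 hθ
        exact this.irreducible
      exact hθi.associated_of_dvd hp hd
    have hdh : θ ∣ N3 σ h := by
      have h1 : θ * (σ 0 θ * σ 1 θ * σ 2 θ * σ 0 (σ 1 θ) * σ 0 (σ 2 θ) * σ 1 (σ 2 θ) *
          σ 0 (σ 1 (σ 2 θ)) * N3 σ h) = θ * (w * θ * r ^ 2) := by
        have h2 : θ * (σ 0 θ * σ 1 θ * σ 2 θ * σ 0 (σ 1 θ) * σ 0 (σ 2 θ) * σ 1 (σ 2 θ) *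
          σ 0 (σ 1 (σ 2 θ)) * N3 σ h) = N3 σ (θ * h) := by
          rw [N3_mul]
          conv_rhs => rw [N3]
          ring
        rw [h2, hN]
        ring
      have h3 := mul_left_cancel₀ hθ.ne_zero h1
      have h4 : θ ∣ σ 0 θ * σ 1 θ * σ 2 θ * σ 0 (σ 1 θ) * σ 0 (σ 2 θ) * σ 1 (σ 2 θ) *
          σ 0 (σ 1 (σ 2 θ)) * N3 σ h := ⟨w * r ^ 2, by rw [h3]; ring⟩
      rcases hθ.dvd_or_dvd h4 with h4 | h4
      · exfalso
        rcases hθ.dvd_or_dvd h4 with h4 | h4
        · rcases hθ.dvd_or_dvd h4 with h4 | h4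
          · rcases hθ.dvd_or_dvd h4 with h4 | h4
            · rcases hθ.dvd_or_dvd h4 with h4 | h4
              · rcases hθ.dvd_or_dvd h4 with h4 | h4
                · rcases hθ.dvd_or_dvd h4 with h4 | h4
                  · exact hnd true false false (by simp) h4
                  · exact hnd false true false (by simp) h4
                · exact hnd false false true (by simp) h4
              · exact hnd true true false (by simp) h4
            · exact hnd true false true (by simp) h4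
          · exact hnd false true true (by simp) h4
        · exact hnd true true true (by simp) h4
      · exact h4
    have hex : ∃ a b c : Bool, θ ∣ gg σ a b c h := by
      unfold N3 at hdh
      rcases hθ.dvd_or_dvd hdh with h4 | h4
      · rcases hθ.dvd_or_dvd h4 with h4 | h4
        · rcases hθ.dvd_or_dvd h4 with h4 | h4
          · rcases hθ.dvd_or_dvd h4 with h4 | h4
            · rcases hθ.dvd_or_dvd h4 with h4 | h4
              · rcases hθ.dvd_or_dvd h4 with h4 | h4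
                · rcases hθ.dvd_or_dvd h4 with h4 | h4
                  · exact ⟨false, false, false, h4⟩
                  · exact ⟨true, false, false, h4⟩
                · exact ⟨false, true, false, h4⟩
              · exact ⟨false, false, true, h4⟩
            · exact ⟨true, true, false, h4⟩
          · exact ⟨true, false, true, h4⟩
        · exact ⟨false, true, true, h4⟩
      · exact ⟨true, true, true, h4⟩
    obtain ⟨a, b, c, hd⟩ := hex
    have hd' : gg σ a b c θ ∣ h := by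
      obtain ⟨x, hx⟩ := hd
      refine ⟨gg σ a b c x, ?_⟩
      rw [← map_mul, ← hx, gg_gg σ hinv hcom]
    obtain ⟨h', rfl⟩ := hd'
    have hh' : h' ≠ 0 := right_ne_zero_of_mul hh
    have hN' : N3 σ (θ * (gg σ a b c θ * h')) = N3 σ θ ^ 2 * N3 σ h' := by
      rw [N3_mul, N3_mul, N3_gg σ hinv hcom]
      ring
    rw [hN'] at hN ⊢
    obtain ⟨t, ht⟩ := descend _ _ w _ (N3_ne_zero σ hθ.ne_zero) hw hN
    have h2 := IH h' ⟨hh', θ * gg σ a b c θ, fun hu => hθ.not_unit (isUnit_of_mul_isUnit_left hu),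
      by ring⟩ hh' w t hw ht
    exact (IsSquare.sq _).mul h2

end Pool.Agent.H66.UT
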